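import Pool.Agent.Helper62.WB.Goals
import Pool.Agent.Helper62.WB.Basic

/-! Packet WB-S2: the supports cover the boundary. -/

set_option autoImplicit false

namespace Pool.Agent.Helper86.WB

open Pool.Agent.Helper62.WB

variable {T : RTree} {D : Type} [Group D]

/-- level `k` of `z` is in the orbit of level `k` of `y` under the stabiliser of level `m` -/
def Rel (b : TAct T D) (m k : ℕ) (y z : T.Bd) : Prop :=
  ∃ d : D, b.act m d = 1 ∧ b.act k d (y.1 k) = z.1 k

theorem Rel.symm {b : TAct T D} {m k : ℕ} {y z : T.Bd} (h : Rel b m k y z) : Rel b m k z y := by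
  obtain ⟨d, h1, h2⟩ := h
  refine ⟨d⁻¹, by rw [map_inv, h1, inv_one], ?_⟩
  rw [← h2, map_inv]
  simp

theorem Rel.trans {b : TAct T D} {m k : ℕ} {y z w : T.Bd} (h : Rel b m k y z)
    (h' : Rel b m k z w) : Rel b m k y w := by
  obtain ⟨d, h1, h2⟩ := h
  obtain ⟨d', h1', h2'⟩ := h'
  refine ⟨d' * d, by rw [map_mul, h1, h1', one_mul], ?_⟩
  rw [map_mul, Equiv.Perm.mul_apply, h2, h2']

theorem Rel.mono {b : TAct T D} {m k k' : ℕ} {y z : T.Bd} (hk : k ≤ k') (h : Rel b m k' y z) :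
    Rel b m k y z := by
  obtain ⟨d, h1, h2⟩ := h
  refine ⟨d, h1, ?_⟩
  have h3 : (b.bd d y).1 k' = z.1 k' := h2
  exact bd_eq_of_le hk h3

/-- finitely many classes -/
theorem fin_classes {b : TAct T D} (hb : b.WeaklyBranch) (m : ℕ) (x : T.Bd) :
    ∃ c : Equiv.Perm (T.L m) → D, ∀ z : T.Bd, ∃ p, ∀ k, Rel b m k (b.bd (c p) x) z := by
  classical
  haveI : Finite (T.L m) := T.fin m
  haveI : Fintype (Equiv.Perm (T.L m)) := Fintype.ofFinite _
  set c : Equiv.Perm (T.L m) → D := fun p => if h : ∃ d, b.act m d = p then h.choose else 1 with hc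
  have hcs : ∀ g : D, b.act m (c (b.act m g)) = b.act m g := by
    intro g
    have h : ∃ d, b.act m d = b.act m g := ⟨g, rfl⟩
    have : c (b.act m g) = h.choose := by
      rw [hc]
      exact dif_pos h
    rw [this]
    exact h.choose_spec
  refine ⟨c, fun z => ?_⟩
  have h1 : ∀ k, ∃ p, Rel b m k (b.bd (c p) x) z := by
    intro k
    obtain ⟨g, hg⟩ := hb.trans k (x.1 k) (z.1 k)
    refine ⟨b.act m g, g * (c (b.act m g))⁻¹, ?_, ?_⟩
    · rw [map_mul, map_inv, hcs, mul_inv_cancel]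
    · rw [TAct.bd_apply, ← Equiv.Perm.mul_apply, ← map_mul, inv_mul_cancel_right, hg]
  by_contra hcon
  push Not at hcon
  choose κ hκ using hcon
  obtain ⟨p, hp⟩ := h1 (Finset.univ.sup κ)
  exact hκ p (hp.mono (Finset.le_sup (Finset.mem_univ p)))

/-- the classes are open -/
theorem open_class {b : TAct T D} (hb : b.WeaklyBranch) (m : ℕ) (x : T.Bd) :
    ∃ k0, ∀ z : T.Bd, z.1 k0 = x.1 k0 → ∀ k, Rel b m k x z := by
  classical
  haveI : Finite (T.L m) := T.fin m
  haveI : Fintype (Equiv.Perm (T.L m)) := Fintype.ofFinite _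
  obtain ⟨c, hc⟩ := fin_classes hb m x
  have h1 : ∀ p, ∃ k, (¬ ∀ j, Rel b m j (b.bd (c p) x) x) → ¬ Rel b m k (b.bd (c p) x) x := by
    intro p
    by_cases h : ∀ j, Rel b m j (b.bd (c p) x) x
    · exact ⟨0, fun h' => absurd h h'⟩
    · push Not at h
      obtain ⟨j, hj⟩ := h
      exact ⟨j, fun _ => hj⟩
  choose κ hκ using h1
  refine ⟨Finset.univ.sup κ, fun z hz => ?_⟩
  obtain ⟨p, hp⟩ := hc z
  by_cases h : ∀ j, Rel b m j (b.bd (c p) x) x
  · intro k
    exact (h k).symm.trans (hp k)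
  · exfalso
    refine hκ p h ?_
    have h2 := hp (Finset.univ.sup κ)
    obtain ⟨d, hd1, hd2⟩ := h2
    have h3 : Rel b m (Finset.univ.sup κ) (b.bd (c p) x) x := ⟨d, hd1, by rw [hd2, hz]⟩
    exact h3.mono (Finset.le_sup (Finset.mem_univ p))

theorem s2 (h0 : StmtS0) : StmtS2 := by
  intro T D _ b τ hB n x
  obtain ⟨A1, _, _, A4, A5⟩ := h0 T D b τ hB
  have hb : b.WeaklyBranch := hB.1
  by_contra hx
  push Not at hx
  obtain ⟨m, hm⟩ := A4 n
  obtain ⟨k0, hk0⟩ := open_class hb m x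
  -- the points below `x.1 k0` are in no support
  have hE : ∀ z : T.Bd, z.1 k0 = x.1 k0 → ∀ v : T.L n, z ∉ supp b τ v := by
    intro z hz v hv
    obtain ⟨k, hk⟩ := A1 n v z hv
    obtain ⟨d, hd1, hd2⟩ := hk0 z hz k
    have h1 : b.bd d x ∈ supp b τ v := hk _ hd2
    have h2 := hm v d⁻¹ (b.bd d x) (by rw [map_inv, hd1, inv_one]) h1
    rw [← Equiv.Perm.mul_apply, ← map_mul, inv_mul_cancel, map_one] at h2
    exact hx v h2
  have hfix : ∀ z : T.Bd, z.1 k0 = x.1 k0 → ∀ v : T.L n, ∀ c ∈ b.Rist v, b.bd (τ c) z = z := by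
    intro z hz v c hc
    by_contra h
    exact hE z hz v ⟨c, hc, h⟩
  obtain ⟨r, hr, hr1⟩ := hb.rist k0 (x.1 k0)
  have hr0 := Rist_act hr
  have hcomm : ∀ v : T.L n, ∀ c ∈ b.Rist v, r * τ c = τ c * r := by
    intro v c hc
    refine commute_of_disjoint hb (S := {z | z.1 k0 = x.1 k0}) ?_ ?_ ?_ ?_
    · intro y hy
      exact (mem_Rist_iff b _ r).1 hr y hy
    · intro y hy
      exact hfix y hy v c hc
    · intro y hy
      show (b.bd r y).1 k0 = x.1 k0
      rw [TAct.bd_apply, hr0]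
      exact hy
    · intro y hy hy'
      have h1 := hfix _ hy' v c hc
      have h2 : b.bd (τ c) y = y := (b.bd (τ c)).injective h1
      rw [h2] at hy'
      exact hy hy'
  have hcomm' : ∀ v : T.L n, ∀ c ∈ b.Rist v, τ.symm r * c = c * τ.symm r := by
    intro v c hc
    apply τ.injective
    rw [map_mul, map_mul, MulEquiv.apply_symm_apply]
    exact hcomm v c hc
  have h1 : τ.symm r = 1 := by
    refine eq_one_of_bd hb fun y => ?_
    exact A5 n (y.1 n) (τ.symm r) (hcomm' (y.1 n)) y rfl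
  apply hr1
  have h2 := congrArg τ h1
  rwa [MulEquiv.apply_symm_apply, map_one] at h2

end Pool.Agent.Helper86.WB
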